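import Mathlib
import Pool.Agent.Work.MP_8efaaa_nt.SR.Defs

/-!
# Definitions of the block E3 (fixed file): Monsky's matrix of an even number
-/

set_option autoImplicit false

namespace Pool.Agent.Work.MP_8efaaa_nt.E3

open Pool.Agent.Work.MP_8efaaa_nt.SR

/-- Monsky's matrix of the even number `2 m`, `m` odd. -/
def monskyE (m : ℕ) :
    Matrix (m.primeFactors ⊕ m.primeFactors) (m.primeFactors ⊕ m.primeFactors) (ZMod 2) :=
  Matrix.fromBlocks (dg m 2) (redei m + dg m 2) ((redei m).transpose + dg m 2) (dg m (-1))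

end Pool.Agent.Work.MP_8efaaa_nt.E3
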