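import Mathlib
import Pool.Agent.Work.MP_8efaaa_nt.SR.Defs
import Pool.Agent.Work.MP_8efaaa_nt.SR.Ker
import Pool.Agent.Work.MP_8efaaa_nt.E3.Defs

/-!
# E3/Ker: vectors in the kernel of the Monsky matrix of `2 p q r`
-/

set_option autoImplicit false

namespace Pool.Agent.Work.MP_8efaaa_nt.E3

open Pool.Agent.Work.MP_8efaaa_nt.SR

section

variable {p q r : ℕ}

theorem pf3 (hp : p.Prime) (hq : q.Prime) (hr : r.Prime) :
    (p * q * r).primeFactors = {p, q, r} := by
  rw [Nat.primeFactors_mul (mul_ne_zero hp.ne_zero hq.ne_zero) hr.ne_zero,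
    Nat.primeFactors_mul hp.ne_zero hq.ne_zero, hp.primeFactors, hq.primeFactors, hr.primeFactors]
  ext x
  simp only [Finset.mem_union, Finset.mem_singleton, Finset.mem_insert]
  tauto

/-- sums over the prime factors of `p q r` -/
theorem sum3 {M : Type*} [AddCommMonoid M] (hp : p.Prime) (hq : q.Prime) (hr : r.Prime)
    (hpq : p ≠ q) (hpr : p ≠ r) (hqr : q ≠ r) (f : ℕ → M) :
    ∑ x : (p * q * r).primeFactors, f x = f p + (f q + f r) := by
  rw [Finset.sum_coe_sort (p * q * r).primeFactors f, pf3 hp hq hr, Finset.sum_insert,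
    Finset.sum_insert, Finset.sum_singleton]
  · rw [Finset.mem_singleton]
    exact hqr
  · rw [Finset.mem_insert, Finset.mem_singleton, not_or]
    exact ⟨hpq, hpr⟩

/-- the diagonal entries of the Redei matrix -/
def dia (p q r l : ℕ) : ZMod 2 :=
  (if p = l then 0 else sg p l) + ((if q = l then 0 else sg q l) + (if r = l then 0 else sg r l))

/-- the entries of the Redei matrix -/
def ent (p q r l m : ℕ) : ZMod 2 := if l = m then dia p q r l else sg m l

theorem redei3 (hp : p.Prime) (hq : q.Prime) (hr : r.Prime) (hpq : p ≠ q) (hpr : p ≠ r)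
    (hqr : q ≠ r) (l m : (p * q * r).primeFactors) :
    redei (p * q * r) l m = ent p q r l m := by
  unfold redei ent dia
  by_cases h : l = m
  · rw [if_pos h, if_pos (by rw [h])]
    rw [← sum3 hp hq hr hpq hpr hqr (fun x => if x = (l : ℕ) then 0 else sg (x : ℕ) l)]
    refine Finset.sum_congr rfl fun x _ => ?_
    by_cases h1 : x = l
    · rw [if_pos h1, if_pos (by rw [h1])]
    · rw [if_neg h1, if_neg (fun h2 => h1 (Subtype.ext h2))]
  · rw [if_neg h, if_neg (fun h2 => h (Subtype.ext h2))]

/-- a vector in the kernel of the Monsky matrix -/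
theorem ker3 (hp : p.Prime) (hq : q.Prime) (hr : r.Prime) (hpq : p ≠ q) (hpr : p ≠ r)
    (hqr : q ≠ r) {x y : ℕ → ZMod 2}
    (h1 : sg 2 p * x p + (sg q p * (y p + y q) + sg r p * (y p + y r)) + sg 2 p * y p = 0)
    (h2 : sg 2 q * x q + (sg p q * (y q + y p) + sg r q * (y q + y r)) + sg 2 q * y q = 0)
    (h3 : sg 2 r * x r + (sg p r * (y r + y p) + sg q r * (y r + y q)) + sg 2 r * y r = 0)
    (h4 : ((sg q p + sg r p) * x p + sg p q * x q + sg p r * x r) + sg 2 p * x p +
      sg (-1) p * y p = 0)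
    (h5 : ((sg p q + sg r q) * x q + sg q p * x p + sg q r * x r) + sg 2 q * x q +
      sg (-1) q * y q = 0)
    (h6 : ((sg p r + sg q r) * x r + sg r p * x p + sg r q * x q) + sg 2 r * x r +
      sg (-1) r * y r = 0) :
    (monskyE (p * q * r)).mulVec (Sum.elim (fun l : (p * q * r).primeFactors => x l)
      (fun l : (p * q * r).primeFactors => y l)) = 0 := by
  unfold monskyE
  rw [Matrix.fromBlocks_mulVec]
  have e1 : (Sum.elim (fun l : (p * q * r).primeFactors => x l)
      (fun l : (p * q * r).primeFactors => y l)) ∘ Sum.inl =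
        fun l : (p * q * r).primeFactors => x l := rfl
  have e2 : (Sum.elim (fun l : (p * q * r).primeFactors => x l)
      (fun l : (p * q * r).primeFactors => y l)) ∘ Sum.inr =
        fun l : (p * q * r).primeFactors => y l := rfl
  rw [e1, e2]
  have hA : ∀ (l : (p * q * r).primeFactors),
      ((redei (p * q * r)).mulVec fun m : (p * q * r).primeFactors => y m) l =
        ent p q r l p * y p + (ent p q r l q * y q + ent p q r l r * y r) := by
    intro l
    show ∑ m, redei (p * q * r) l m * y m = _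
    rw [← sum3 hp hq hr hpq hpr hqr (fun m => ent p q r l m * y m)]
    refine Finset.sum_congr rfl fun m _ => ?_
    rw [redei3 hp hq hr hpq hpr hqr]
  have hB : ∀ (l : (p * q * r).primeFactors),
      ((redei (p * q * r)).transpose.mulVec fun m : (p * q * r).primeFactors => x m) l =
        ent p q r p l * x p + (ent p q r q l * x q + ent p q r r l * x r) := by
    intro l
    show ∑ m, redei (p * q * r) m l * x m = _
    rw [← sum3 hp hq hr hpq hpr hqr (fun m => ent p q r m l * x m)]
    refine Finset.sum_congr rfl fun m _ => ?_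
    rw [redei3 hp hq hr hpq hpr hqr]
  have hl : ∀ l : (p * q * r).primeFactors, (l : ℕ) = p ∨ (l : ℕ) = q ∨ (l : ℕ) = r := by
    rintro ⟨l, h⟩
    rw [pf3 hp hq hr, Finset.mem_insert, Finset.mem_insert, Finset.mem_singleton] at h
    exact h
  have dp : dia p q r p = sg q p + sg r p := by
    unfold dia
    rw [if_pos rfl, if_neg hpq.symm, if_neg hpr.symm, zero_add]
  have dq : dia p q r q = sg p q + sg r q := by
    unfold dia
    rw [if_neg hpq, if_pos rfl, if_neg hqr.symm, zero_add]
  have dr : dia p q r r = sg p r + sg q r := by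
    unfold dia
    rw [if_neg hpr, if_neg hqr, if_pos rfl, add_zero]
  have epp : ent p q r p p = sg q p + sg r p := by
    rw [← dp]; exact if_pos rfl
  have eqq : ent p q r q q = sg p q + sg r q := by
    rw [← dq]; exact if_pos rfl
  have err : ent p q r r r = sg p r + sg q r := by
    rw [← dr]; exact if_pos rfl
  have epq : ent p q r p q = sg q p := if_neg hpq
  have epr : ent p q r p r = sg r p := if_neg hpr
  have eqp : ent p q r q p = sg p q := if_neg hpq.symm
  have eqr : ent p q r q r = sg r q := if_neg hqr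
  have erp : ent p q r r p = sg p r := if_neg hpr.symm
  have erq : ent p q r r q = sg q r := if_neg hqr.symm
  funext i
  rcases i with l | l
  · simp only [Sum.elim_inl, Matrix.add_mulVec, Pi.add_apply, dg, Matrix.mulVec_diagonal,
      Pi.zero_apply]
    rw [hA]
    rcases hl l with h | h | h <;> rw [h]
    · rw [epp, epq, epr]
      linear_combination h1
    · rw [eqp, eqq, eqr]
      linear_combination h2
    · rw [erp, erq, err]
      linear_combination h3
  · simp only [Sum.elim_inr, Matrix.add_mulVec, Pi.add_apply, dg, Matrix.mulVec_diagonal,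
      Pi.zero_apply]
    rw [hB]
    rcases hl l with h | h | h <;> rw [h]
    · rw [epp, eqp, erp]
      linear_combination h4
    · rw [epq, eqq, erq]
      linear_combination h5
    · rw [epr, eqr, err]
      linear_combination h6

/-- the six equations -/
def E6 (tp tq tr np nq nr pq pr qp qr rp rq xp xq xr yp yq yr : ZMod 2) : Prop :=
  tp * xp + (qp * (yp + yq) + rp * (yp + yr)) + tp * yp = 0 ∧
  tq * xq + (pq * (yq + yp) + rq * (yq + yr)) + tq * yq = 0 ∧
  tr * xr + (pr * (yr + yp) + qr * (yr + yq)) + tr * yr = 0 ∧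
  ((qp + rp) * xp + pq * xq + pr * xr) + tp * xp + np * yp = 0 ∧
  ((pq + rq) * xq + qp * xp + qr * xr) + tq * xq + nq * yq = 0 ∧
  ((pr + qr) * xr + rp * xp + rq * xq) + tr * xr + nr * yr = 0

instance (tp tq tr np nq nr pq pr qp qr rp rq xp xq xr yp yq yr : ZMod 2) :
    Decidable (E6 tp tq tr np nq nr pq pr qp qr rp rq xp xq xr yp yq yr) := by
  unfold E6
  infer_instance

/-- the function with the values `a`, `b`, `c` at `p`, `q` and elsewhere -/
def vec (p q : ℕ) (a b c : ZMod 2) : ℕ → ZMod 2 :=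
  fun l => if l = p then a else if l = q then b else c

theorem vec_inj {n : ℕ} (hpq : p ≠ q) (hpr : p ≠ r) (hqr : q ≠ r)
    (hn : ∀ l, l = p ∨ l = q ∨ l = r → l ∈ n.primeFactors)
    {a b c d e f a' b' c' d' e' f' : ZMod 2}
    (h : Sum.elim (fun l : n.primeFactors => vec p q a b c l)
        (fun l : n.primeFactors => vec p q d e f l) =
      Sum.elim (fun l : n.primeFactors => vec p q a' b' c' l)
        (fun l : n.primeFactors => vec p q d' e' f' l)) :
    a = a' ∧ b = b' ∧ c = c' ∧ d = d' ∧ e = e' ∧ f = f' := by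
  have v1 : ∀ a b c : ZMod 2, vec p q a b c p = a := fun a b c => if_pos rfl
  have v2 : ∀ a b c : ZMod 2, vec p q a b c q = b := fun a b c => by
    unfold vec
    rw [if_neg hpq.symm, if_pos rfl]
  have v3 : ∀ a b c : ZMod 2, vec p q a b c r = c := fun a b c => by
    unfold vec
    rw [if_neg hpr.symm, if_neg hqr.symm]
  have hl : ∀ l (hl : l ∈ n.primeFactors), vec p q a b c l = vec p q a' b' c' l :=
    fun l hl => congrFun h (Sum.inl ⟨l, hl⟩)
  have hr : ∀ l (hl : l ∈ n.primeFactors), vec p q d e f l = vec p q d' e' f' l :=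
    fun l hl => congrFun h (Sum.inr ⟨l, hl⟩)
  have p1 := hn p (Or.inl rfl)
  have q1 := hn q (Or.inr (Or.inl rfl))
  have r1 := hn r (Or.inr (Or.inr rfl))
  have a1 := hl p p1
  have a2 := hl q q1
  have a3 := hl r r1
  have a4 := hr p p1
  have a5 := hr q q1
  have a6 := hr r r1
  rw [v1, v1] at a1 a4
  rw [v2, v2] at a2 a5
  rw [v3, v3] at a3 a6
  exact ⟨a1, a2, a3, a4, a5, a6⟩

/-- two vectors in the kernel -/
theorem two3 (hp : p.Prime) (hq : q.Prime) (hr : r.Prime) (hpq : p ≠ q) (hpr : p ≠ r)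
    (hqr : q ≠ r) {a b c d e f a' b' c' d' e' f' : ZMod 2}
    (h : E6 (sg 2 p) (sg 2 q) (sg 2 r) (sg (-1) p) (sg (-1) q) (sg (-1) r) (sg p q) (sg p r)
      (sg q p) (sg q r) (sg r p) (sg r q) a b c d e f)
    (h' : E6 (sg 2 p) (sg 2 q) (sg 2 r) (sg (-1) p) (sg (-1) q) (sg (-1) r) (sg p q) (sg p r)
      (sg q p) (sg q r) (sg r p) (sg r q) a' b' c' d' e' f')
    (h0 : ¬ (a = 0 ∧ b = 0 ∧ c = 0 ∧ d = 0 ∧ e = 0 ∧ f = 0))
    (h0' : ¬ (a' = 0 ∧ b' = 0 ∧ c' = 0 ∧ d' = 0 ∧ e' = 0 ∧ f' = 0))
    (hne : ¬ (a = a' ∧ b = b' ∧ c = c' ∧ d = d' ∧ e = e' ∧ f = f')) :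
    (monskyE (p * q * r)).rank + 1 ≠ 6 := by
  have hc : Fintype.card ((p * q * r).primeFactors ⊕ (p * q * r).primeFactors) = 6 := by
    rw [Fintype.card_sum, Fintype.card_coe, pf3 hp hq hr, Finset.card_insert_of_notMem,
      Finset.card_insert_of_notMem, Finset.card_singleton]
    · rw [Finset.mem_singleton]
      exact hqr
    · rw [Finset.mem_insert, Finset.mem_singleton, not_or]
      exact ⟨hpq, hpr⟩
  have hn : ∀ l, l = p ∨ l = q ∨ l = r → l ∈ (p * q * r).primeFactors := by
    intro l hl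
    rw [pf3 hp hq hr, Finset.mem_insert, Finset.mem_insert, Finset.mem_singleton]
    exact hl
  have v1 : ∀ a b c : ZMod 2, vec p q a b c p = a := fun a b c => if_pos rfl
  have v2 : ∀ a b c : ZMod 2, vec p q a b c q = b := fun a b c => by
    unfold vec
    rw [if_neg hpq.symm, if_pos rfl]
  have v3 : ∀ a b c : ZMod 2, vec p q a b c r = c := fun a b c => by
    unfold vec
    rw [if_neg hpr.symm, if_neg hqr.symm]
  have key : ∀ {a b c d e f : ZMod 2}, E6 (sg 2 p) (sg 2 q) (sg 2 r) (sg (-1) p) (sg (-1) q)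
      (sg (-1) r) (sg p q) (sg p r) (sg q p) (sg q r) (sg r p) (sg r q) a b c d e f →
      (monskyE (p * q * r)).mulVec (Sum.elim (fun l : (p * q * r).primeFactors => vec p q a b c l)
        (fun l : (p * q * r).primeFactors => vec p q d e f l)) = 0 := by
    intro a b c d e f h
    obtain ⟨h1, h2, h3, h4, h5, h6⟩ := h
    apply ker3 hp hq hr hpq hpr hqr <;> simp only [v1, v2, v3] <;> assumption
  have z1 : (0 : (p * q * r).primeFactors ⊕ (p * q * r).primeFactors → ZMod 2) =
      Sum.elim (fun l : (p * q * r).primeFactors => vec p q 0 0 0 l)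
        (fun l : (p * q * r).primeFactors => vec p q 0 0 0 l) := by
    have h1 : ∀ l, vec p q 0 0 0 l = 0 := by
      intro l
      unfold vec
      split_ifs <;> rfl
    funext i
    rcases i with i | i
    · exact (h1 i).symm
    · exact (h1 i).symm
  rw [← hc]
  refine rank_ne (monskyE (p * q * r)) (key h) (key h') ?_ ?_ ?_
  · intro h1
    rw [z1] at h1
    exact h0 (vec_inj hpq hpr hqr hn h1)
  · intro h1
    rw [z1] at h1
    exact h0' (vec_inj hpq hpr hqr hn h1)
  · intro h1
    exact hne (vec_inj hpq hpr hqr hn h1)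

end

end Pool.Agent.Work.MP_8efaaa_nt.E3
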