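import Mathlib
import Pool.Agent.Work.MP_8efaaa_nt.SR.Defs
import Pool.Agent.Work.MP_8efaaa_nt.E3.Ker

/-!
# E3/Pat: the conditions on the symbols if the Monsky matrix of `2 p q r` has rank five
-/

set_option autoImplicit false

namespace Pool.Agent.Work.MP_8efaaa_nt.E3

open Pool.Agent.Work.MP_8efaaa_nt.SR

private theorem z2 (t : ZMod 2) : t = 0 ∨ t = 1 := by
  revert t
  decide

theorem sg_iff {u : ℤ} {p : ℕ} : sg u p = 1 ↔ jacobiSym u p = -1 := by
  unfold sg
  by_cases h : jacobiSym u p = -1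
  · rw [if_pos h]
    exact ⟨fun _ => h, fun _ => rfl⟩
  · rw [if_neg h]
    exact ⟨fun h1 => absurd h1 (by decide), fun h1 => absurd h1 h⟩

theorem sg_two {p : ℕ} (hp : p % 2 = 1) : sg 2 p = if p % 8 = 1 ∨ p % 8 = 7 then 0 else 1 := by
  have h2 : jacobiSym 2 p = if p % 8 = 1 ∨ p % 8 = 7 then 1 else -1 := by
    rw [jacobiSym.at_two (Nat.odd_iff.2 hp), ZMod.χ₈_nat_eq_if_mod_eight, if_neg (by omega)]
  unfold sg
  rw [h2]
  by_cases h : p % 8 = 1 ∨ p % 8 = 7
  · rw [if_pos h, if_neg (by norm_num), if_pos h]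
  · rw [if_neg h, if_pos rfl, if_neg h]

theorem sg_neg {p : ℕ} (hp : p % 2 = 1) : sg (-1) p = if p % 4 = 1 then 0 else 1 := by
  have h2 : jacobiSym (-1) p = if p % 4 = 1 then 1 else -1 := by
    rw [jacobiSym.at_neg_one (Nat.odd_iff.2 hp), ZMod.χ₄_nat_eq_if_mod_four, if_neg (by omega)]
  unfold sg
  rw [h2]
  by_cases h : p % 4 = 1
  · rw [if_pos h, if_neg (by norm_num), if_pos h]
  · rw [if_neg h, if_pos rfl, if_neg h]

/-- reciprocity, one of the primes `1 (mod 4)` -/
theorem sg_rec {p q : ℕ} (hq : q % 2 = 1) (h : p % 4 = 1) :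
    sg q p = sg p q := by
  unfold sg
  rw [jacobiSym.quadratic_reciprocity_one_mod_four h (Nat.odd_iff.2 hq)]

/-- reciprocity, both primes `3 (mod 4)` -/
theorem sg_rec3 {p q : ℕ} (hp : p.Prime) (hq : q.Prime) (hpq : p ≠ q) (h : p % 4 = 3)
    (h' : q % 4 = 3) : sg q p = 1 + sg p q := by
  unfold sg
  have h1 := jacobiSym.quadratic_reciprocity_three_mod_four h h'
  have h2 : jacobiSym q p = 1 ∨ jacobiSym q p = -1 :=
    jacobiSym.eq_one_or_neg_one (by
      rw [Int.gcd_natCast_natCast]
      exact (Nat.coprime_primes hq hp).2 hpq.symm)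
  rw [h1]
  rcases h2 with h3 | h3 <;> rw [h3] <;> decide

section

variable {p q r : ℕ}

/-- primes `1, 1, 3 (mod 8)` -/
theorem pat113 (hp : p.Prime) (hq : q.Prime) (hr : r.Prime) (hpq : p ≠ q) (hp8 : p % 8 = 1)
    (hq8 : q % 8 = 1) (hr8 : r % 8 = 3) (hM : (monskyE (p * q * r)).rank + 1 = 6) :
    (jacobiSym p q = -1 ∨ jacobiSym p r = -1) ∧ (jacobiSym q p = -1 ∨ jacobiSym q r = -1) ∧
      (jacobiSym r p = -1 ∨ jacobiSym r q = -1) := by
  have hpr : p ≠ r := by omega
  have hqr : q ≠ r := by omega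
  have k := fun {a b c d e f a' b' c' d' e' f'} => two3 hp hq hr hpq hpr hqr (a := a) (b := b)
    (c := c) (d := d) (e := e) (f := f) (a' := a') (b' := b') (c' := c') (d' := d') (e' := e')
    (f' := f')
  simp only [← sg_iff]
  rw [sg_two (p := p) (by omega), sg_two (p := q) (by omega), sg_two (p := r) (by omega),
    sg_neg (p := p) (by omega), sg_neg (p := q) (by omega), sg_neg (p := r) (by omega),
    if_pos (Or.inl hp8), if_pos (Or.inl hq8), if_neg (show ¬ (r % 8 = 1 ∨ r % 8 = 7) by omega),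
    if_pos (show p % 4 = 1 by omega), if_pos (show q % 4 = 1 by omega),
    if_neg (show ¬ r % 4 = 1 by omega), sg_rec (p := p) (q := q) (by omega) (by omega),
    sg_rec (p := p) (q := r) (by omega) (by omega),
    sg_rec (p := q) (q := r) (by omega) (by omega)] at k
  rw [sg_rec (p := p) (q := q) (by omega) (by omega),
    sg_rec (p := p) (q := r) (by omega) (by omega),
    sg_rec (p := q) (q := r) (by omega) (by omega)]
  rcases z2 (sg p q) with h1 | h1 <;> rcases z2 (sg p r) with h2 | h2 <;>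
    rcases z2 (sg q r) with h3 | h3 <;> rw [h1, h2, h3] at k ⊢
  · exact absurd hM (k (a := 0) (b := 0) (c := 0) (d := 0) (e := 1) (f := 0) (a' := 0) (b' := 0)
      (c' := 0) (d' := 1) (e' := 0) (f' := 0) (by decide) (by decide) (by decide) (by decide)
      (by decide))
  · exact absurd hM (k (a := 0) (b := 0) (c := 0) (d := 1) (e := 0) (f := 0) (a' := 0) (b' := 1)
      (c' := 1) (d' := 0) (e' := 1) (f' := 1) (by decide) (by decide) (by decide) (by decide)
      (by decide))
  · exact absurd hM (k (a := 0) (b := 0) (c := 0) (d := 0) (e := 1) (f := 0) (a' := 0) (b' := 1)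
      (c' := 0) (d' := 0) (e' := 0) (f' := 0) (by decide) (by decide) (by decide) (by decide)
      (by decide))
  · decide
  · exact absurd hM (k (a := 0) (b := 0) (c := 0) (d := 1) (e := 1) (f := 0) (a' := 0) (b' := 0)
      (c' := 1) (d' := 0) (e' := 0) (f' := 1) (by decide) (by decide) (by decide) (by decide)
      (by decide))
  · decide
  · decide
  · decide

/-- primes `1, 5, 7 (mod 8)` -/
theorem pat157 (hp : p.Prime) (hq : q.Prime) (hr : r.Prime) (hp8 : p % 8 = 1)
    (hq8 : q % 8 = 5) (hr8 : r % 8 = 7) (hM : (monskyE (p * q * r)).rank + 1 = 6) :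
    jacobiSym p q = -1 ∨ jacobiSym p r = -1 := by
  have hpq : p ≠ q := by omega
  have hpr : p ≠ r := by omega
  have hqr : q ≠ r := by omega
  have k := fun {a b c d e f a' b' c' d' e' f'} => two3 hp hq hr hpq hpr hqr (a := a) (b := b)
    (c := c) (d := d) (e := e) (f := f) (a' := a') (b' := b') (c' := c') (d' := d') (e' := e')
    (f' := f')
  simp only [← sg_iff]
  rw [sg_two (p := p) (by omega), sg_two (p := q) (by omega), sg_two (p := r) (by omega),
    sg_neg (p := p) (by omega), sg_neg (p := q) (by omega), sg_neg (p := r) (by omega),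
    if_pos (Or.inl hp8), if_neg (show ¬ (q % 8 = 1 ∨ q % 8 = 7) by omega), if_pos (Or.inr hr8),
    if_pos (show p % 4 = 1 by omega), if_pos (show q % 4 = 1 by omega),
    if_neg (show ¬ r % 4 = 1 by omega), sg_rec (p := p) (q := q) (by omega) (by omega),
    sg_rec (p := p) (q := r) (by omega) (by omega),
    sg_rec (p := q) (q := r) (by omega) (by omega)] at k
  rcases z2 (sg p q) with h1 | h1 <;> rcases z2 (sg p r) with h2 | h2 <;>
    rcases z2 (sg q r) with h3 | h3 <;> rw [h1, h2, h3] at k <;> rw [h1, h2]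
  · exact absurd hM (k (a := 0) (b := 0) (c := 0) (d := 1) (e := 0) (f := 0) (a' := 0) (b' := 0)
      (c' := 1) (d' := 0) (e' := 0) (f' := 0) (by decide) (by decide) (by decide) (by decide)
      (by decide))
  · exact absurd hM (k (a := 0) (b := 0) (c := 0) (d := 1) (e := 0) (f := 0) (a' := 0) (b' := 1)
      (c' := 0) (d' := 0) (e' := 1) (f' := 1) (by decide) (by decide) (by decide) (by decide)
      (by decide))
  all_goals decide

/-- primes `1, 3, 5 (mod 8)` -/
theorem pat135 (hp : p.Prime) (hq : q.Prime) (hr : r.Prime) (hp8 : p % 8 = 1)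
    (hq8 : q % 8 = 3) (hr8 : r % 8 = 5) (hM : (monskyE (p * q * r)).rank + 1 = 6) :
    jacobiSym p q = -1 ∨ jacobiSym p r = -1 := by
  have hpq : p ≠ q := by omega
  have hpr : p ≠ r := by omega
  have hqr : q ≠ r := by omega
  have k := fun {a b c d e f a' b' c' d' e' f'} => two3 hp hq hr hpq hpr hqr (a := a) (b := b)
    (c := c) (d := d) (e := e) (f := f) (a' := a') (b' := b') (c' := c') (d' := d') (e' := e')
    (f' := f')
  simp only [← sg_iff]
  rw [sg_two (p := p) (by omega), sg_two (p := q) (by omega), sg_two (p := r) (by omega),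
    sg_neg (p := p) (by omega), sg_neg (p := q) (by omega), sg_neg (p := r) (by omega),
    if_pos (Or.inl hp8), if_neg (show ¬ (q % 8 = 1 ∨ q % 8 = 7) by omega),
    if_neg (show ¬ (r % 8 = 1 ∨ r % 8 = 7) by omega),
    if_pos (show p % 4 = 1 by omega), if_neg (show ¬ q % 4 = 1 by omega),
    if_pos (show r % 4 = 1 by omega), sg_rec (p := p) (q := q) (by omega) (by omega),
    sg_rec (p := p) (q := r) (by omega) (by omega),
    ← sg_rec (p := r) (q := q) (by omega) (by omega)] at k
  rcases z2 (sg p q) with h1 | h1 <;> rcases z2 (sg p r) with h2 | h2 <;>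
    rcases z2 (sg q r) with h3 | h3 <;> rw [h1, h2, h3] at k <;> rw [h1, h2]
  · exact absurd hM (k (a := 0) (b := 0) (c := 0) (d := 1) (e := 0) (f := 0) (a' := 0) (b' := 1)
      (c' := 0) (d' := 0) (e' := 1) (f' := 0) (by decide) (by decide) (by decide) (by decide)
      (by decide))
  · exact absurd hM (k (a := 0) (b := 0) (c := 0) (d := 1) (e := 0) (f := 0) (a' := 0) (b' := 0)
      (c' := 1) (d' := 0) (e' := 1) (f' := 0) (by decide) (by decide) (by decide) (by decide)
      (by decide))
  all_goals decide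

/-- primes `3, 7, 7 (mod 8)` -/
theorem pat377 (hp : p.Prime) (hq : q.Prime) (hr : r.Prime) (hqr : q ≠ r) (hp8 : p % 8 = 3)
    (hq8 : q % 8 = 7) (hr8 : r % 8 = 7) (hM : (monskyE (p * q * r)).rank + 1 = 6) :
    jacobiSym p q = -1 ∨ jacobiSym p r = -1 := by
  have hpq : p ≠ q := by omega
  have hpr : p ≠ r := by omega
  have k := fun {a b c d e f a' b' c' d' e' f'} => two3 hp hq hr hpq hpr hqr (a := a) (b := b)
    (c := c) (d := d) (e := e) (f := f) (a' := a') (b' := b') (c' := c') (d' := d') (e' := e')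
    (f' := f')
  simp only [← sg_iff]
  rw [sg_two (p := p) (by omega), sg_two (p := q) (by omega), sg_two (p := r) (by omega),
    sg_neg (p := p) (by omega), sg_neg (p := q) (by omega), sg_neg (p := r) (by omega),
    if_neg (show ¬ (p % 8 = 1 ∨ p % 8 = 7) by omega), if_pos (Or.inr hq8), if_pos (Or.inr hr8),
    if_neg (show ¬ p % 4 = 1 by omega), if_neg (show ¬ q % 4 = 1 by omega),
    if_neg (show ¬ r % 4 = 1 by omega),
    sg_rec3 (p := p) (q := q) hp hq hpq (by omega) (by omega),
    sg_rec3 (p := p) (q := r) hp hr hpr (by omega) (by omega),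
    sg_rec3 (p := q) (q := r) hq hr hqr (by omega) (by omega)] at k
  rcases z2 (sg p q) with h1 | h1 <;> rcases z2 (sg p r) with h2 | h2 <;>
    rcases z2 (sg q r) with h3 | h3 <;> rw [h1, h2, h3] at k <;> rw [h1, h2]
  · exact absurd hM (k (a := 0) (b := 0) (c := 1) (d := 0) (e := 0) (f := 0) (a' := 0) (b' := 1)
      (c' := 0) (d' := 0) (e' := 1) (f' := 1) (by decide) (by decide) (by decide) (by decide)
      (by decide))
  · exact absurd hM (k (a := 0) (b := 0) (c := 1) (d := 0) (e := 1) (f := 1) (a' := 0) (b' := 1)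
      (c' := 0) (d' := 0) (e' := 0) (f' := 0) (by decide) (by decide) (by decide) (by decide)
      (by decide))
  all_goals decide

/-- primes `3, 3, 3 (mod 8)`: two of the primes are nonresidues modulo the third -/
theorem pat333 (hp : p.Prime) (hq : q.Prime) (hr : r.Prime) (hpq : p ≠ q) (hpr : p ≠ r)
    (hqr : q ≠ r) (hp8 : p % 8 = 3)
    (hq8 : q % 8 = 3) (hr8 : r % 8 = 3) (hM : (monskyE (p * q * r)).rank + 1 = 6) :
    (jacobiSym q p = -1 ∧ jacobiSym r p = -1) ∨ (jacobiSym p q = -1 ∧ jacobiSym r q = -1) ∨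
      (jacobiSym p r = -1 ∧ jacobiSym q r = -1) := by
  have k := fun {a b c d e f a' b' c' d' e' f'} => two3 hp hq hr hpq hpr hqr (a := a) (b := b)
    (c := c) (d := d) (e := e) (f := f) (a' := a') (b' := b') (c' := c') (d' := d') (e' := e')
    (f' := f')
  simp only [← sg_iff]
  rw [sg_two (p := p) (by omega), sg_two (p := q) (by omega), sg_two (p := r) (by omega),
    sg_neg (p := p) (by omega), sg_neg (p := q) (by omega), sg_neg (p := r) (by omega),
    if_neg (show ¬ (p % 8 = 1 ∨ p % 8 = 7) by omega),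
    if_neg (show ¬ (q % 8 = 1 ∨ q % 8 = 7) by omega),
    if_neg (show ¬ (r % 8 = 1 ∨ r % 8 = 7) by omega),
    if_neg (show ¬ p % 4 = 1 by omega), if_neg (show ¬ q % 4 = 1 by omega),
    if_neg (show ¬ r % 4 = 1 by omega),
    sg_rec3 (p := p) (q := q) hp hq hpq (by omega) (by omega),
    sg_rec3 (p := p) (q := r) hp hr hpr (by omega) (by omega),
    sg_rec3 (p := q) (q := r) hq hr hqr (by omega) (by omega)] at k
  rw [sg_rec3 (p := p) (q := q) hp hq hpq (by omega) (by omega),
    sg_rec3 (p := p) (q := r) hp hr hpr (by omega) (by omega),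
    sg_rec3 (p := q) (q := r) hq hr hqr (by omega) (by omega)]
  rcases z2 (sg p q) with h1 | h1 <;> rcases z2 (sg p r) with h2 | h2 <;>
    rcases z2 (sg q r) with h3 | h3 <;> rw [h1, h2, h3] at k ⊢
  · decide
  · decide
  · exact absurd hM (k (a := 0) (b := 0) (c := 1) (d := 1) (e := 0) (f := 0) (a' := 0) (b' := 1)
      (c' := 0) (d' := 0) (e' := 0) (f' := 1) (by decide) (by decide) (by decide) (by decide)
      (by decide))
  · decide
  · decide
  · exact absurd hM (k (a := 0) (b := 0) (c := 1) (d := 0) (e := 1) (f := 0) (a' := 0) (b' := 1)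
      (c' := 0) (d' := 1) (e' := 0) (f' := 0) (by decide) (by decide) (by decide) (by decide)
      (by decide))
  · decide
  · decide

/-- primes `1, 1, 7 (mod 8)` -/
theorem pat117 (hp : p.Prime) (hq : q.Prime) (hr : r.Prime) (hpq : p ≠ q) (hp8 : p % 8 = 1)
    (hq8 : q % 8 = 1) (hr8 : r % 8 = 7) (hM : (monskyE (p * q * r)).rank + 1 = 6) :
    (jacobiSym p q = -1 ∨ jacobiSym p r = -1) ∧ (jacobiSym q p = -1 ∨ jacobiSym q r = -1) ∧
      (jacobiSym r p = -1 ∨ jacobiSym r q = -1) := by
  have hpr : p ≠ r := by omega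
  have hqr : q ≠ r := by omega
  have k := fun {a b c d e f a' b' c' d' e' f'} => two3 hp hq hr hpq hpr hqr (a := a) (b := b)
    (c := c) (d := d) (e := e) (f := f) (a' := a') (b' := b') (c' := c') (d' := d') (e' := e')
    (f' := f')
  simp only [← sg_iff]
  rw [sg_two (p := p) (by omega), sg_two (p := q) (by omega), sg_two (p := r) (by omega),
    sg_neg (p := p) (by omega), sg_neg (p := q) (by omega), sg_neg (p := r) (by omega),
    if_pos (Or.inl hp8), if_pos (Or.inl hq8), if_pos (Or.inr hr8),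
    if_pos (show p % 4 = 1 by omega), if_pos (show q % 4 = 1 by omega),
    if_neg (show ¬ r % 4 = 1 by omega), sg_rec (p := p) (q := q) (by omega) (by omega),
    sg_rec (p := p) (q := r) (by omega) (by omega),
    sg_rec (p := q) (q := r) (by omega) (by omega)] at k
  rw [sg_rec (p := p) (q := q) (by omega) (by omega),
    sg_rec (p := p) (q := r) (by omega) (by omega),
    sg_rec (p := q) (q := r) (by omega) (by omega)]
  rcases z2 (sg p q) with h1 | h1 <;> rcases z2 (sg p r) with h2 | h2 <;>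
    rcases z2 (sg q r) with h3 | h3 <;> rw [h1, h2, h3] at k ⊢
  · exact absurd hM (k (a := 0) (b := 0) (c := 0) (d := 0) (e := 1) (f := 0) (a' := 0) (b' := 0)
      (c' := 0) (d' := 1) (e' := 0) (f' := 0) (by decide) (by decide) (by decide) (by decide)
      (by decide))
  · exact absurd hM (k (a := 0) (b := 0) (c := 0) (d := 1) (e := 0) (f := 0) (a' := 0) (b' := 1)
      (c' := 1) (d' := 0) (e' := 0) (f' := 0) (by decide) (by decide) (by decide) (by decide)
      (by decide))
  · exact absurd hM (k (a := 0) (b := 0) (c := 0) (d := 0) (e := 1) (f := 0) (a' := 0) (b' := 1)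
      (c' := 0) (d' := 0) (e' := 0) (f' := 0) (by decide) (by decide) (by decide) (by decide)
      (by decide))
  · decide
  · exact absurd hM (k (a := 0) (b := 0) (c := 0) (d := 1) (e := 1) (f := 0) (a' := 0) (b' := 0)
      (c' := 1) (d' := 0) (e' := 0) (f' := 0) (by decide) (by decide) (by decide) (by decide)
      (by decide))
  · decide
  · decide
  · decide

/-- one nonresidue -/
theorem sg_mul_one {x y l : ℕ} (hx : x.Prime) (hy : y.Prime) (hl : l.Prime) (hxl : x ≠ l)
    (hyl : y ≠ l) (h : sg x l + sg y l = 1) : jacobiSym (x * y) l = -1 := by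
  have h1 : jacobiSym x l = 1 ∨ jacobiSym x l = -1 :=
    jacobiSym.eq_one_or_neg_one (by
      rw [Int.gcd_natCast_natCast]
      exact (Nat.coprime_primes hx hl).2 hxl)
  have h2 : jacobiSym y l = 1 ∨ jacobiSym y l = -1 :=
    jacobiSym.eq_one_or_neg_one (by
      rw [Int.gcd_natCast_natCast]
      exact (Nat.coprime_primes hy hl).2 hyl)
  rw [jacobiSym.mul_left]
  unfold sg at h
  rcases h1 with h1 | h1 <;> rcases h2 with h2 | h2 <;> rw [h1, h2] at h ⊢
  · exact absurd h (by decide)
  · norm_num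
  · norm_num
  · exact absurd h (by decide)

/-- primes `7, 7, 7 (mod 8)` -/
theorem pat777 (hp : p.Prime) (hq : q.Prime) (hr : r.Prime) (hpq : p ≠ q) (hpr : p ≠ r)
    (hqr : q ≠ r) (hp8 : p % 8 = 7)
    (hq8 : q % 8 = 7) (hr8 : r % 8 = 7) (hM : (monskyE (p * q * r)).rank + 1 = 6) :
    jacobiSym (q * r) p = -1 ∧ jacobiSym (p * r) q = -1 ∧ jacobiSym (p * q) r = -1 := by
  have k := fun {a b c d e f a' b' c' d' e' f'} => two3 hp hq hr hpq hpr hqr (a := a) (b := b)
    (c := c) (d := d) (e := e) (f := f) (a' := a') (b' := b') (c' := c') (d' := d') (e' := e')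
    (f' := f')
  suffices h : sg q p + sg r p = 1 ∧ sg p q + sg r q = 1 ∧ sg p r + sg q r = 1 from
    ⟨sg_mul_one hq hr hp hpq.symm hpr.symm h.1, sg_mul_one hp hr hq hpq hqr.symm h.2.1,
      sg_mul_one hp hq hr hpr hqr h.2.2⟩
  rw [sg_two (p := p) (by omega), sg_two (p := q) (by omega), sg_two (p := r) (by omega),
    sg_neg (p := p) (by omega), sg_neg (p := q) (by omega), sg_neg (p := r) (by omega),
    if_pos (Or.inr hp8), if_pos (Or.inr hq8), if_pos (Or.inr hr8),
    if_neg (show ¬ p % 4 = 1 by omega), if_neg (show ¬ q % 4 = 1 by omega),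
    if_neg (show ¬ r % 4 = 1 by omega),
    sg_rec3 (p := p) (q := q) hp hq hpq (by omega) (by omega),
    sg_rec3 (p := p) (q := r) hp hr hpr (by omega) (by omega),
    sg_rec3 (p := q) (q := r) hq hr hqr (by omega) (by omega)] at k
  rw [sg_rec3 (p := p) (q := q) hp hq hpq (by omega) (by omega),
    sg_rec3 (p := p) (q := r) hp hr hpr (by omega) (by omega),
    sg_rec3 (p := q) (q := r) hq hr hqr (by omega) (by omega)]
  rcases z2 (sg p q) with h1 | h1 <;> rcases z2 (sg p r) with h2 | h2 <;>
    rcases z2 (sg q r) with h3 | h3 <;> rw [h1, h2, h3] at k ⊢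
  · exact absurd hM (k (a := 0) (b := 0) (c := 1) (d := 0) (e := 0) (f := 0) (a' := 0) (b' := 1)
      (c' := 0) (d' := 0) (e' := 1) (f' := 1) (by decide) (by decide) (by decide) (by decide)
      (by decide))
  · exact absurd hM (k (a := 0) (b := 0) (c := 1) (d := 0) (e := 1) (f := 1) (a' := 0) (b' := 1)
      (c' := 0) (d' := 0) (e' := 0) (f' := 0) (by decide) (by decide) (by decide) (by decide)
      (by decide))
  · decide
  · exact absurd hM (k (a := 0) (b := 0) (c := 1) (d := 1) (e := 1) (f := 0) (a' := 0) (b' := 1)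
      (c' := 0) (d' := 0) (e' := 0) (f' := 0) (by decide) (by decide) (by decide) (by decide)
      (by decide))
  · exact absurd hM (k (a := 0) (b := 0) (c := 1) (d := 0) (e := 0) (f := 0) (a' := 0) (b' := 1)
      (c' := 0) (d' := 1) (e' := 0) (f' := 1) (by decide) (by decide) (by decide) (by decide)
      (by decide))
  · decide
  · exact absurd hM (k (a := 0) (b := 0) (c := 1) (d := 1) (e := 0) (f := 1) (a' := 0) (b' := 1)
      (c' := 0) (d' := 1) (e' := 0) (f' := 1) (by decide) (by decide) (by decide) (by decide)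
      (by decide))
  · exact absurd hM (k (a := 0) (b := 0) (c := 1) (d := 1) (e := 1) (f := 0) (a' := 0) (b' := 1)
      (c' := 0) (d' := 1) (e' := 1) (f' := 0) (by decide) (by decide) (by decide) (by decide)
      (by decide))

end

end Pool.Agent.Work.MP_8efaaa_nt.E3
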