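import Mathlib
import Pool.Agent.Work.MP_8efaaa_nt.V6.Main
import Pool.Agent.Work.MP_8efaaa_nt.W14.TMn
import Pool.Agent.Work.MP_8efaaa_nt.Y6.Main
import Pool.Agent.Work.MP_8efaaa_nt.R3.Main
import Pool.Agent.Work.MP_8efaaa_nt.T3.Main135
import Pool.Agent.Work.MP_8efaaa_nt.T3.Main157
import Pool.Agent.Work.MP_8efaaa_nt.Q3.Main
import Pool.Agent.Work.MP_8efaaa_nt.SR.Main
import Pool.Agent.Work.MP_8efaaa_nt.E3.Pat

/-!
# E3/Main: three odd primes and Selmer rank one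
-/

set_option autoImplicit false

namespace Pool.Agent.Work.MP_8efaaa_nt.E3

open Pool.Agent.Work.MP_8efaaa_nt.SR

/-- the statement for `2 m` -/
private def P (m : ℕ) : Prop := (monskyE m).rank + 1 = 6 → IsCongruent (2 * m)

private theorem srt {p q r : ℕ} (hp : p.Prime) (hq : q.Prime) (hr : r.Prime) (hpq : p ≠ q)
    (hpr : p ≠ r) (hqr : q ≠ r) (hp2 : p % 2 = 1) (hq2 : q % 2 = 1) (hr2 : r % 2 = 1)
    (h1 : p % 8 ≤ q % 8) (h2 : q % 8 ≤ r % 8)
    (h8 : (p * q * r) % 8 = 3 ∨ (p * q * r) % 8 = 7) : P (p * q * r) := by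
  intro hM
  have e : ∀ x y z : ℕ, 2 * (x * y * z) = 2 * x * y * z := fun x y z => by ring
  have hm : (p * q * r) % 8 = ((p % 8) * (q % 8) * (r % 8)) % 8 := by
    rw [Nat.mul_mod (p * q), Nat.mul_mod p, Nat.mul_mod (p % 8 * (q % 8)), Nat.mod_mod]
  have c1 : p % 8 = 1 ∨ p % 8 = 3 ∨ p % 8 = 5 ∨ p % 8 = 7 := by omega
  have c2 : q % 8 = 1 ∨ q % 8 = 3 ∨ q % 8 = 5 ∨ q % 8 = 7 := by omega
  have c3 : r % 8 = 1 ∨ r % 8 = 3 ∨ r % 8 = 5 ∨ r % 8 = 7 := by omega
  rw [hm] at h8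
  clear hm
  rcases c1 with c1 | c1 | c1 | c1 <;> rcases c2 with c2 | c2 | c2 | c2 <;>
    rcases c3 with c3 | c3 | c3 | c3 <;> rw [c1, c2] at h1 <;> rw [c2, c3] at h2 <;>
    rw [c1, c2, c3] at h8 <;>
    first
    | exact absurd h1 (by decide)
    | exact absurd h2 (by decide)
    | exact absurd h8 (by decide)
    | skip
  · -- 1, 1, 3
    obtain ⟨a1, a2, a3⟩ := pat113 hp hq hr hpq c1 c2 c3 hM
    rw [e]
    exact R3.main_113 hp hq hr c1 c2 c3 hpq a1 a2 a3
  · -- 1, 1, 7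
    obtain ⟨a1, a2, a3⟩ := pat117 hp hq hr hpq c1 c2 c3 hM
    have hm7 : (p * q * r) % 8 = 7 := by
      rw [Nat.mul_mod (p * q), Nat.mul_mod p, c1, c2, c3]
    refine Q3.main_q3 hp hq hr hpq hpr hqr (Or.inl c1) (Or.inl c2) (Or.inr c3) hm7 ?_ ?_ ?_
    · rintro ⟨b1, b2, -⟩
      rcases a1 with a1 | a1
      · rw [a1] at b1
        norm_num at b1
      · rw [a1] at b2
        norm_num at b2
    · rintro ⟨b1, b2, -⟩
      rcases a2 with a2 | a2
      · rw [a2] at b1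
        norm_num at b1
      · rw [a2] at b2
        norm_num at b2
    · rintro ⟨b1, b2, -⟩
      rcases a3 with a3 | a3
      · rw [a3] at b1
        norm_num at b1
      · rw [a3] at b2
        norm_num at b2
  · -- 1, 3, 5
    rw [e]
    exact T3.main_135 hp hq hr c1 c2 c3 (pat135 hp hq hr c1 c2 c3 hM)
  · -- 1, 5, 7
    rw [show p * q * r = p * r * q by ring, e]
    exact T3.main_157 hp hr hq c1 c3 c2 (pat157 hp hq hr c1 c2 c3 hM).symm
  · -- 3, 3, 3
    rcases pat333 hp hq hr hpq hpr hqr c1 c2 c3 hM with ⟨a1, a2⟩ | ⟨a1, a2⟩ | ⟨a1, a2⟩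
    · rw [e]
      exact R3.main_333 hp hq hr c1 c2 c3 hqr a1 a2
    · rw [show p * q * r = q * p * r by ring, e]
      exact R3.main_333 hq hp hr c2 c1 c3 hpr a1 a2
    · rw [show p * q * r = r * p * q by ring, e]
      exact R3.main_333 hr hp hq c3 c1 c2 hpq a1 a2
  · -- 3, 3, 7
    rw [e]
    exact W14.main_three hp hq hr hpq (Or.inl ⟨c1, c2⟩) c3
  · -- 3, 5, 5
    rw [e]
    exact V6.main_v6 hp hq hr c1 c2 c3 hqr
  · -- 3, 7, 7
    rw [e]
    exact Y6.main_377 hp hq hr c1 c2 c3 hqr (pat377 hp hq hr hqr c1 c2 c3 hM)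
  · -- 5, 5, 7
    rw [e]
    exact W14.main_three hp hq hr hpq (Or.inr ⟨c1, c2⟩) c3
  · -- 7, 7, 7
    obtain ⟨a1, a2, a3⟩ := pat777 hp hq hr hpq hpr hqr c1 c2 c3 hM
    have hm7 : (p * q * r) % 8 = 7 := by
      rw [Nat.mul_mod (p * q), Nat.mul_mod p, c1, c2, c3]
    refine Q3.main_q3 hp hq hr hpq hpr hqr (Or.inr c1) (Or.inr c2) (Or.inr c3) hm7 ?_ ?_ ?_
    · rintro ⟨-, -, b3⟩
      rw [a1] at b3
      norm_num at b3
    · rintro ⟨-, -, b3⟩
      rw [a2] at b3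
      norm_num at b3
    · rintro ⟨-, -, b3⟩
      rw [a3] at b3
      norm_num at b3

/-- `2 p q r`, `p q r = 3 (mod 4)` -/
theorem main_even {p q r : ℕ} (hp : p.Prime) (hq : q.Prime) (hr : r.Prime) (hpq : p ≠ q)
    (hpr : p ≠ r) (hqr : q ≠ r) (hp2 : p % 2 = 1) (hq2 : q % 2 = 1) (hr2 : r % 2 = 1)
    (h8 : (p * q * r) % 8 = 3 ∨ (p * q * r) % 8 = 7)
    (hM : (monskyE (p * q * r)).rank + 1 = 6) :
    IsCongruent (2 * (p * q * r)) := by
  have key : P (p * q * r) := by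
    rcases le_total (p % 8) (q % 8) with h1 | h1 <;> rcases le_total (q % 8) (r % 8) with h2 | h2
    · exact srt hp hq hr hpq hpr hqr hp2 hq2 hr2 h1 h2 h8
    · rcases le_total (p % 8) (r % 8) with h3 | h3
      · have e : p * q * r = p * r * q := by ring
        rw [e] at h8 ⊢
        exact srt hp hr hq hpr hpq hqr.symm hp2 hr2 hq2 h3 h2 (by tauto)
      · have e : p * q * r = r * p * q := by ring
        rw [e] at h8 ⊢
        exact srt hr hp hq hpr.symm hqr.symm hpq hr2 hp2 hq2 h3 h1 (by tauto)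
    · rcases le_total (p % 8) (r % 8) with h3 | h3
      · have e : p * q * r = q * p * r := by ring
        rw [e] at h8 ⊢
        exact srt hq hp hr hpq.symm hqr hpr hq2 hp2 hr2 h1 h3 (by tauto)
      · have e : p * q * r = q * r * p := by ring
        rw [e] at h8 ⊢
        exact srt hq hr hp hqr hpq.symm hpr.symm hq2 hr2 hp2 h2 h3 (by tauto)
    · have e : p * q * r = r * q * p := by ring
      rw [e] at h8 ⊢
      exact srt hr hq hp hqr.symm hpr.symm hpq.symm hr2 hq2 hp2 h2 h1 (by tauto)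
  exact key hM

private theorem mod_a {m : ℕ} (h : (2 * m) % 8 = 5 ∨ (2 * m) % 8 = 6 ∨ (2 * m) % 8 = 7) :
    m % 8 = 3 ∨ m % 8 = 7 := by omega

/-- `2 m = 6 (mod 8)` squarefree with three odd prime factors, Monsky matrix of corank one -/
theorem main_even' {m : ℕ} (ha : Squarefree (2 * m))
    (h8 : (2 * m) % 8 = 5 ∨ (2 * m) % 8 = 6 ∨ (2 * m) % 8 = 7) (h3 : m.primeFactors.card = 3)
    (hM : (monskyE m).rank + 1 = 6) : IsCongruent (2 * m) := by
  have hm2 : m % 2 = 1 := by omega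
  have hm : Squarefree m := ha.squarefree_of_dvd (dvd_mul_left m 2)
  obtain ⟨p, q, r, hpq, hpr, hqr, hpf⟩ := Finset.card_eq_three.1 h3
  have hmp : m = p * q * r := by
    have h6 := Nat.prod_primeFactors_of_squarefree hm
    rw [hpf, Finset.prod_insert, Finset.prod_insert, Finset.prod_singleton] at h6
    · rw [← h6]
      ring
    · rw [Finset.mem_singleton]
      exact hqr
    · rw [Finset.mem_insert, Finset.mem_singleton, not_or]
      exact ⟨hpq, hpr⟩
  have hp := Nat.prime_of_mem_primeFactors (show p ∈ m.primeFactors by rw [hpf]; simp)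
  have hq := Nat.prime_of_mem_primeFactors (show q ∈ m.primeFactors by rw [hpf]; simp)
  have hr := Nat.prime_of_mem_primeFactors (show r ∈ m.primeFactors by rw [hpf]; simp)
  subst hmp
  have hodd : ∀ x y : ℕ, (x * y) % 2 = 1 → x % 2 = 1 ∧ y % 2 = 1 := by
    intro x y h
    rw [Nat.mul_mod] at h
    rcases Nat.mod_two_eq_zero_or_one x with h6 | h6 <;>
      rcases Nat.mod_two_eq_zero_or_one y with h7 | h7 <;> rw [h6, h7] at h <;>
      first | (norm_num at h; done) | exact ⟨h6, h7⟩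
  obtain ⟨h6, hr2⟩ := hodd _ _ hm2
  obtain ⟨hp2, hq2⟩ := hodd _ _ h6
  exact main_even hp hq hr hpq hpr hqr hp2 hq2 hr2 (mod_a h8) hM

end Pool.Agent.Work.MP_8efaaa_nt.E3
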